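import Pool.Agent.H31.SW.TargetsA
import Pool.Agent.H79.DW.MS

/-!
# Board swl_modules, module MS: measurability and supports
-/

set_option autoImplicit false

open NumberField NumberField.InfinitePlace NumberField.Units
  NumberField.Units.dirichletUnitTheorem MeasureTheory Set Filter Complex
open scoped nonZeroDivisors ENNReal

namespace Pool.Agent.H3.SWL

open Pool.Agent.H25.HK Pool.Agent.H23.LB Pool.Agent.H23.LC
open Pool.Agent.H28.RC (Rep ft idl)
open Pool.Agent.H29.DW (dg Rl wv Pos om zs rv)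
open Pool.Agent.H31.SW
open Pool.Agent.H79.DW (norm_om abs_near zs_abs supp loc_fin om_measurable)

section

variable {K : Type} [Field K] [NumberField K]

theorem pF_near {G : InfinitePlace K → ℂ → ℂ} (hp : ∀ v w, 1 / 16 < ‖w - 1‖ → G v w = 0)
    {x : K} {y : InfinitePlace K → ℝ} {ω : InfinitePlace K → ℂ} (h : pF G y ω x ≠ 0)
    (v : InfinitePlace K) : ‖wv v x y ω - 1‖ ≤ 1 / 16 := by
  unfold pF at h
  rw [Finset.prod_ne_zero_iff] at h
  by_contra h4
  exact h v (Finset.mem_univ v) (hp v _ (not_le.1 h4))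

theorem pF_measurable (hYC : T_YC) (M : FI K) {G : InfinitePlace K → ℂ → ℂ}
    (hG : ∀ v, Measurable (G v)) (s : Bool) (x : K) :
    Measurable (fun u : logSpace K × ℝ × (InfinitePlace K → ℝ) =>
      pF G (yM K M u.2.1 (zs s u.1)) (om s u.2.2) x) := by
  classical
  unfold pF
  refine Finset.measurable_prod _ fun v _ => ?_
  refine (hG v).comp ?_
  unfold wv
  refine Measurable.mul ?_ (om_measurable s v)
  refine Measurable.mul measurable_const ?_
  refine Complex.measurable_ofReal.comp (Real.measurable_exp.comp ?_)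
  refine Measurable.div_const ?_ _
  have h2 : Continuous (fun u : logSpace K × ℝ × (InfinitePlace K → ℝ) =>
      (u.2.1 - Real.log (FractionalIdeal.absNorm M : ℝ), zs s u.1)) := by
    refine Continuous.prodMk (by fun_prop) ?_
    unfold zs
    cases s
    · simp only [Bool.false_eq_true, if_false]
      exact continuous_fst.neg
    · simp only [if_true]
      exact continuous_fst
  have h3 := (hYC K).2.2.2.2.1.comp h2
  exact ((continuous_apply v).comp h3).measurable

theorem tsumG_measurable (hTH : T_TH) (hYC : T_YC) (M : FI K) (hM : M ≠ 0)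
    {G : InfinitePlace K → ℂ → ℂ} (hG : ∀ v, Measurable (G v))
    (hp : ∀ v w, 1 / 16 < ‖w - 1‖ → G v w = 0) (cc : K → ℂ) (s : Bool) :
    Measurable (fun u : logSpace K × ℝ × (InfinitePlace K → ℝ) =>
      ∑' x : {x : K // x ∈ M}, cc x * pF G (yM K M u.2.1 (zs s u.1)) (om s u.2.2) x) := by
  classical
  have hfin : ∀ B : ℝ, ∃ F : Finset {x : K // x ∈ M},
      ∀ u : logSpace K × ℝ × (InfinitePlace K → ℝ), (∀ w, |u.1 w| ≤ B) → |u.2.1| ≤ B →
      ∀ x : {x : K // x ∈ M}, x ∉ F →
        cc x * pF G (yM K M u.2.1 (zs s u.1)) (om s u.2.2) x.1 = 0 := by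
    intro B
    have hf := loc_fin hTH hYC M hM B
    refine ⟨hf.toFinset, fun u h1 h2 x hx => ?_⟩
    by_contra hne
    apply hx
    rw [Set.Finite.mem_toFinset]
    refine ⟨u.2.1, zs s u.1, fun w => by rw [zs_abs]; exact h1 w, h2, fun v => ?_⟩
    have h3 := abs_near (pF_near hp (right_ne_zero_of_mul hne) v)
    rw [Pool.Agent.H79.DW.norm_wv v _ _ _ (norm_om s u.2.2 v)] at h3
    have h4 := (abs_le.mp h3).2
    linarith
  choose F hF using hfin
  refine measurable_of_tendsto_metrizable
    (f := fun (k : ℕ) u => ∑ x ∈ F (k : ℝ), cc x *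
      pF G (yM K M u.2.1 (zs s u.1)) (om s u.2.2) x.1) ?_ ?_
  · intro k
    refine Finset.measurable_fun_sum _ fun x _ => ?_
    exact (pF_measurable hYC M hG s x.1).const_mul _
  · rw [tendsto_pi_nhds]
    intro u
    have h1 : ∃ B : ℝ, (∀ w, |u.1 w| ≤ B) ∧ |u.2.1| ≤ B := by
      refine ⟨∑ w, |u.1 w| + |u.2.1|, fun w => ?_, ?_⟩
      · have := Finset.single_le_sum (f := fun w => |u.1 w|) (fun _ _ => abs_nonneg _)
          (Finset.mem_univ w)
        have h2 := abs_nonneg u.2.1
        linarith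
      · have : 0 ≤ ∑ w, |u.1 w| := Finset.sum_nonneg fun _ _ => abs_nonneg _
        linarith
    obtain ⟨B, hB1, hB2⟩ := h1
    obtain ⟨k₀, hk₀⟩ := exists_nat_ge B
    refine tendsto_const_nhds.congr' ?_
    filter_upwards [eventually_ge_atTop k₀] with k hk
    have hk' : B ≤ (k : ℝ) := hk₀.trans (by exact_mod_cast hk)
    exact tsum_eq_sum fun x hx =>
      hF (k : ℝ) u (fun w => (hB1 w).trans hk') (hB2.trans hk') x hx

theorem GG_meas {p : ℂ → ℂ} (hp : Continuous p) (c : ℂ) : Measurable (GG p c) := by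
  unfold GG EE
  have h1 : Measurable (fun w : ℂ => Complex.log w) := Complex.measurable_log
  have h2 : Measurable (fun w : ℂ => p (w - 1)) := (hp.comp (by fun_prop)).measurable
  refine Measurable.mul ?_ h2
  refine Complex.measurable_exp.comp ?_
  refine Measurable.mul ?_ measurable_const
  refine Measurable.neg ?_
  exact Complex.measurable_ofReal.comp (Complex.measurable_re.comp (measurable_const.mul h1))

end

open scoped Classical in
/-- (MS) measurability, bounds, supports. -/
theorem pf_MS (hTH : T_TH) (hYC : T_YC) (_hFD : T_FD) : W_MS := by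
  intro K _ _ M c p cc s hM hPf _
  have hG : ∀ v : InfinitePlace K, Measurable ((fun v => GG (p (rv v)) (c v)) v) := fun v =>
    GG_meas (hPf.1 (rv v) 0).continuous (c v)
  have hp : ∀ (v : InfinitePlace K) (w : ℂ), 1 / 16 < ‖w - 1‖ →
      (fun v => GG (p (rv v)) (c v)) v w = 0 := by
    intro v w hw
    simp only
    unfold GG
    rw [hPf.2 _ _ (by linarith), mul_zero]
  refine ⟨tsumG_measurable hTH hYC M hM hG hp cc s, ?_⟩
  intro z τ θ x hx h
  have h1 : ∀ v, |v x * Real.exp (yM K M τ z v / 2) - 1| ≤ 1 / 16 := by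
    intro v
    have h3 := abs_near (pF_near hp h v)
    rwa [Pool.Agent.H79.DW.norm_wv v _ _ _ (norm_om s θ v)] at h3
  have hx0 : x ≠ 0 := by
    rintro rfl
    obtain ⟨v⟩ : Nonempty (InfinitePlace K) := inferInstance
    have h2 := h1 v
    rw [map_zero, zero_mul, zero_sub, abs_neg, abs_one] at h2
    norm_num at h2
  exact ⟨hx0, supp hYC M hM x hx hx0 τ z h1⟩

end Pool.Agent.H3.SWL
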