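import Pool.Agent.H31.SW.TargetsA
import Pool.Agent.H35.DW.UQb

/-!
# Board swl_modules, module UQ: dual unfolding for general test functions
-/

set_option autoImplicit false
set_option linter.unusedSectionVars false

open NumberField NumberField.InfinitePlace NumberField.Units
  NumberField.Units.dirichletUnitTheorem MeasureTheory Set Filter Complex
open scoped nonZeroDivisors ENNReal

namespace Pool.Agent.H3.SWL

open Pool.Agent.H25.HK Pool.Agent.H23.LB Pool.Agent.H23.LC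
open Pool.Agent.H28.RC (Rep ft idl)
open Pool.Agent.H35.GLB
open Pool.Agent.H29.DW
open Pool.Agent.H31.SW
open Pool.Agent.H35.DW (one_place om_meas class_unf2 sum_classes2 sum_norm v_bound)

section
open scoped Classical

variable (K : Type) [Field K] [NumberField K]

/-- the integral over the angles -/
noncomputable def GkG (G : InfinitePlace K → ℂ → ℂ)
    (k : InfinitePlace K → ℤ) (y : InfinitePlace K → ℝ) : ℂ :=
  ∫ θ in An K, ek k θ * pF G y (om true θ) (1 : K)

/-- the kernel -/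
noncomputable def PwG (G : InfinitePlace K → ℂ → ℂ)
    (k : InfinitePlace K → ℤ) (ν : InfinitePlace K → ℝ) (t : ℝ) (p : logSpace K × ℝ) : ℂ :=
  ec K ν p.1 * cexp (t * p.2 * I) * GkG K G k (yc K p.2 p.1)

theorem WG_eq (G : InfinitePlace K → ℂ → ℂ)
    (k : InfinitePlace K → ℤ) (ν : InfinitePlace K → ℝ) (t : ℝ) :
    WG K G k ν t = ∫ p, PwG K G k ν t p := rfl

theorem GkG_prod (G : InfinitePlace K → ℂ → ℂ)
    (k : InfinitePlace K → ℤ) (y : InfinitePlace K → ℝ) (x : K) (hx : x ≠ 0) :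
    GkG K G k (fun v => y v + 2 * Real.log (v x)) =
      ∏ v, ∫ θ in Icc (0 : ℝ) (2 * Real.pi), an v θ ^ (-k v) *
        G v (((v x * Real.exp (y v / 2) : ℝ) : ℂ) * an v θ) := by
  rw [← int_An]
  unfold GkG
  refine integral_congr_ae (ae_of_all _ fun θ => ?_)
  simp only
  unfold ek pF
  rw [← Finset.prod_mul_distrib]
  refine Finset.prod_congr rfl fun v _ => ?_
  have h1 : 0 < v x := InfinitePlace.pos_iff.2 hx
  have h2 : wv v (1 : K) (fun v => y v + 2 * Real.log (v x)) (om true θ) =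
      ((v x * Real.exp (y v / 2) : ℝ) : ℂ) * an v (θ v) := by
    unfold wv om
    rw [if_pos rfl, map_one, one_mul, add_div, Real.exp_add, mul_div_cancel_left₀ _ (two_ne_zero),
      Real.exp_log h1, mul_comm (Real.exp (y v / 2))]
  rw [h2]

/-- the integral over the angles, conjugate version -/
theorem angG_c (G : InfinitePlace K → ℂ → ℂ) (k : InfinitePlace K → ℤ)
    (y : InfinitePlace K → ℝ) (x : K) (hx : x ≠ 0) :
    ∫ θ in An K, ek k θ * pF G y (om false θ) x =
      ag (-k) x * GkG K G (-k) (fun v => y v + 2 * Real.log (v x)) := by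
  rw [GkG_prod K G (-k) y x hx]
  unfold ag
  rw [← Finset.prod_mul_distrib]
  have h1 : ∀ v : InfinitePlace K, (v.embedding x / ((v x : ℝ) : ℂ)) ^ (-k) v *
      ∫ θ in Icc (0 : ℝ) (2 * Real.pi), an v θ ^ (-(-k) v) *
        G v (((v x * Real.exp (y v / 2) : ℝ) : ℂ) * an v θ) =
      ∫ θ in Icc (0 : ℝ) (2 * Real.pi), an v θ ^ (-k v) *
        G v (v.embedding x * ((Real.exp (y v / 2) : ℝ) : ℂ) * (starRingEnd ℂ) (an v θ)) := by
    intro v
    rw [(one_place K v x hx (k v) (Real.exp (y v / 2)) (G v)).2]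
    simp only [Pi.neg_apply, neg_neg]
  rw [Finset.prod_congr rfl fun v _ => h1 v, ← int_An]
  refine integral_congr_ae (ae_of_all _ fun θ => ?_)
  simp only
  unfold ek pF
  rw [← Finset.prod_mul_distrib]
  refine Finset.prod_congr rfl fun v _ => ?_
  rfl

/-! ### Measurability and bounds -/

theorem pF_meas (G : InfinitePlace K → ℂ → ℂ) (hG : Tf G) (x : K) (s : Bool) :
    Measurable (fun q : (InfinitePlace K → ℝ) × (InfinitePlace K → ℝ) =>
      pF G q.1 (om s q.2) x) := by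
  unfold pF
  refine Finset.measurable_prod _ fun v _ => (hG.meas v).comp ?_
  unfold wv
  have h2 : Measurable (fun q : (InfinitePlace K → ℝ) × (InfinitePlace K → ℝ) => om s q.2 v) :=
    (om_meas K s v).comp measurable_snd
  fun_prop

theorem pF_le (G : InfinitePlace K → ℂ → ℂ) (hG : Tf G) (x : K)
    (y : InfinitePlace K → ℝ) (ω : InfinitePlace K → ℂ) : ‖pF G y ω x‖ ≤ 1 := by
  unfold pF
  rw [norm_prod]
  exact Finset.prod_le_one (fun v _ => norm_nonneg _) fun v _ => hG.norm v _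

theorem pF_B0 (G : InfinitePlace K → ℂ → ℂ) (hG : Tf G) (x : K)
    (hx : x ≠ 0) (y : InfinitePlace K → ℝ) {ω : InfinitePlace K → ℂ} (hω : Pos ω)
    (h : pF G y ω x ≠ 0) : B0 K (1 / 16) (fun v => y v + 2 * Real.log (v x)) := by
  intro v
  have h1 : G v (wv v x y ω) ≠ 0 := by
    unfold pF at h
    rw [Finset.prod_ne_zero_iff] at h
    exact h v (Finset.mem_univ v)
  have h2 : 0 < v x := InfinitePlace.pos_iff.2 hx
  have h3 : ‖wv v x y ω - 1‖ ≤ 1 / 16 := by
    by_contra h4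
    exact h1 (hG.supp v _ (not_le.1 h4))
  have h4 : ‖wv v x y ω‖ = v x * Real.exp (y v / 2) := norm_wv v x y hω
  have h5 : Real.exp ((y v + 2 * Real.log (v x)) / 2) = v x * Real.exp (y v / 2) := by
    rw [add_div, Real.exp_add, mul_div_cancel_left₀ _ (two_ne_zero), Real.exp_log h2, mul_comm]
  simp only
  rw [h5, ← h4]
  have h6 := abs_norm_sub_norm_le (wv v x y ω) 1
  rw [norm_one] at h6
  exact h6.trans h3

theorem pF_enorm (G : InfinitePlace K → ℂ → ℂ) (hG : Tf G) (x : K)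
    (hx : x ≠ 0) (y : InfinitePlace K → ℝ) {ω : InfinitePlace K → ℂ} (hω : Pos ω) :
    ‖pF G y ω x‖ₑ ≤ if B0 K (1 / 16) (fun v => y v + 2 * Real.log (v x)) then 1 else 0 := by
  by_cases h : pF G y ω x = 0
  · rw [h, enorm_zero]
    exact bot_le
  · rw [if_pos (pF_B0 K G hG x hx y hω h), ← ofReal_norm, ← ENNReal.ofReal_one]
    exact ENNReal.ofReal_le_ofReal (pF_le K G hG x y ω)

theorem GkG_meas (G : InfinitePlace K → ℂ → ℂ) (hG : Tf G)
    (k : InfinitePlace K → ℤ) : Measurable (GkG K G k) := by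
  have h1 : Measurable (fun q : (InfinitePlace K → ℝ) × (InfinitePlace K → ℝ) =>
      ek k q.2 * pF G q.1 (om true q.2) (1 : K)) :=
    ((ek_meas K k).comp measurable_snd).mul (pF_meas K G hG 1 true)
  exact h1.stronglyMeasurable.integral_prod_right'.measurable

theorem GkG_bd (G : InfinitePlace K → ℂ → ℂ) (hG : Tf G)
    (k : InfinitePlace K → ℤ) (y : InfinitePlace K → ℝ) :
    ‖GkG K G k y‖ₑ ≤ volume (An K) * if B0 K (1 / 16) y then 1 else 0 := by
  unfold GkG
  refine (enorm_integral_le_lintegral_enorm _).trans ?_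
  have h1 : ∀ θ : InfinitePlace K → ℝ, ‖ek k θ * pF G y (om true θ) (1 : K)‖ₑ ≤
      if B0 K (1 / 16) y then 1 else 0 := by
    intro θ
    rw [enorm_mul, ek_enorm, one_mul]
    have h2 := pF_enorm K G hG (1 : K) one_ne_zero y (Pos_om true θ)
    simpa using h2
  refine (lintegral_mono h1).trans (le_of_eq ?_)
  rw [lintegral_const, Measure.restrict_apply_univ, mul_comm]

theorem PwG_meas (hPU : T_PU) (G : InfinitePlace K → ℂ → ℂ) (hG : Tf G)
    (k : InfinitePlace K → ℤ) (ν : InfinitePlace K → ℝ) (t : ℝ) :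
    Measurable (PwG K G k ν t) := by
  have h1 : Continuous (fun p : logSpace K × ℝ => ec K ν p.1) :=
    ((hPU K).2.2.2.2.1 ν).1.comp continuous_fst
  have h2 : Continuous (fun p : logSpace K × ℝ => cexp (t * p.2 * I)) := by fun_prop
  exact (h1.measurable.mul h2.measurable).mul ((GkG_meas K G hG k).comp (yc_cont K).measurable)

theorem PwG_bd (hPU : T_PU) (G : InfinitePlace K → ℂ → ℂ) (hG : Tf G)
    (k : InfinitePlace K → ℤ) (ν : InfinitePlace K → ℝ)
    (t : ℝ) (p : logSpace K × ℝ) :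
    ‖PwG K G k ν t p‖ₑ ≤ volume (An K) * Rk K (1 / 16) p := by
  unfold PwG
  rw [enorm_mul, enorm_mul, ec_enorm hPU, exp_enorm, one_mul, one_mul]
  exact GkG_bd K G hG k _

theorem PwG_int (hPU : T_PU) (G : InfinitePlace K → ℂ → ℂ) (hG : Tf G)
    (k : InfinitePlace K → ℤ) (ν : InfinitePlace K → ℝ) (t : ℝ) :
    Integrable (PwG K G k ν t) := by
  refine ⟨(PwG_meas K hPU G hG k ν t).aestronglyMeasurable, ?_⟩
  refine lt_of_le_of_lt (lintegral_mono (PwG_bd K hPU G hG k ν t)) ?_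
  rw [lintegral_const_mul _ (Rk_meas K _)]
  exact ENNReal.mul_lt_top (An_fin K)
    (lt_top_iff_ne_top.2 (Rk_fin K (1 / 16) (by norm_num)))

end

section
open scoped Classical

variable {K : Type} [Field K] [NumberField K] {f : Ideal (𝓞 K)}

/-- the terms -/
noncomputable def FqG (D : Sys K f) (χ : HG K f) (G : InfinitePlace K → ℂ → ℂ)
    (c : D.ι) (t : ℝ) (v : ℝ → ℂ)
    (x : K) (p : logSpace K × ℝ × (InfinitePlace K → ℝ)) : ℂ :=
  ec K χ.ν p.1 * cexp (t * p.2.1 * I) * (ek χ.k p.2.2 * (ch D χ c x *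
    v (Ideal.absNorm (idl K (du K ((f : FI K) * D.M c)) x)) *
      pF G (yM K (du K ((f : FI K) * D.M c)) p.2.1 (zs false p.1)) (om false p.2.2) x))

theorem FqG_meas (hPU : T_PU) (D : Sys K f) (χ : HG K f) (G : InfinitePlace K → ℂ → ℂ)
    (hG : Tf G) (c : D.ι) (t : ℝ) (v : ℝ → ℂ) (x : K) :
    Measurable (FqG D χ G c t v x) := by
  have h1 : Continuous (fun p : logSpace K × ℝ × (InfinitePlace K → ℝ) => ec K χ.ν p.1) :=
    ((hPU K).2.2.2.2.1 χ.ν).1.comp continuous_fst
  have h2 : Continuous (fun p : logSpace K × ℝ × (InfinitePlace K → ℝ) =>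
    cexp (t * p.2.1 * I)) := by fun_prop
  have h3 : Measurable (fun p : logSpace K × ℝ × (InfinitePlace K → ℝ) => ek χ.k p.2.2) :=
    (ek_meas K χ.k).comp (measurable_snd.comp measurable_snd)
  have h4 : Measurable (fun p : logSpace K × ℝ × (InfinitePlace K → ℝ) =>
      (yM K (du K ((f : FI K) * D.M c)) p.2.1 (-p.1), p.2.2)) :=
    (yM_meas _).prodMk (measurable_snd.comp measurable_snd)
  have h5 : Measurable (fun p : logSpace K × ℝ × (InfinitePlace K → ℝ) =>
      pF G (yM K (du K ((f : FI K) * D.M c)) p.2.1 (-p.1)) (om false p.2.2) x) := by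
    have h7 := (pF_meas K G hG x false).comp h4
    simp only [Function.comp_def] at h7
    exact h7
  have h6 : FqG D χ G c t v x = fun p : logSpace K × ℝ × (InfinitePlace K → ℝ) =>
      ec K χ.ν p.1 * cexp (t * p.2.1 * I) * (ek χ.k p.2.2 * (ch D χ c x *
    v (Ideal.absNorm (idl K (du K ((f : FI K) * D.M c)) x)) *
      pF G (yM K (du K ((f : FI K) * D.M c)) p.2.1 (-p.1)) (om false p.2.2) x)) := by
    funext p
    unfold FqG
    simp only [zs, Bool.false_eq_true, if_false]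
  rw [h6]
  exact (h1.measurable.mul h2.measurable).mul (h3.mul (measurable_const.mul h5))

/-- (UQ) dual unfolding. -/
theorem pf_UQ (hDC : U_DC) (hAG : U_AG) (hPU : T_PU) : W_UQ := by
  intro K _ _ f hf D χ G t v hG hv
  have hfM : ∀ c, (f : FI K) * D.M c ≠ 0 := fun c => by
    refine mul_ne_zero ?_ (D.reps.1 c)
    rwa [Ne, FractionalIdeal.coeIdeal_eq_zero]
  have hL : ∀ c, du K ((f : FI K) * D.M c) ≠ 0 := fun c =>
    (Pool.Agent.H20.HKI.b_DU K _ (hfM c)).1
  have hreps : Reps K (fun c => du K ((f : FI K) * D.M c)) :=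
    (Pool.Agent.H65.GLA.pf_RR K D.ι _ ((Pool.Agent.H65.GLA.pf_RR K D.ι _ D.reps).1 f hf)).2.1
  obtain ⟨C, hC, hCv⟩ := v_bound (K := K) v hv
  have hcd := (hDC K f hf D χ).1
  set S : ℝ := Real.sqrt (Nf K f) with hS
  have hS0 : 0 ≤ S := Real.sqrt_nonneg _
  set β : Ideal (𝓞 K) → ℂ := fun J => v (Ideal.absNorm J) * ((S : ℂ) * cd D χ J) *
    (Ideal.absNorm J : ℂ) ^ (-(t * I : ℂ)) with hβ
  set γ : Ideal (𝓞 K) → ℝ≥0∞ := fun J =>
    ‖v (Ideal.absNorm J) * ((S : ℂ) * cd D χ J)‖ₑ * volume (An K) with hγ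
  have hb : ∀ J : NZI K, ‖v (Ideal.absNorm J.1) * ((S : ℂ) * cd D χ J.1)‖ ≤
      (C * (S * S)) * (Ideal.absNorm J.1 : ℝ) ^ (-(3 / 2) : ℝ) := by
    intro J
    rw [norm_mul, norm_mul, Complex.norm_real, Real.norm_of_nonneg hS0]
    have h1 := hCv J
    have h2 := hcd J.1
    have h3 : S * ‖cd D χ J.1‖ ≤ S * S := mul_le_mul_of_nonneg_left h2 hS0
    calc ‖v (Ideal.absNorm J.1)‖ * (S * ‖cd D χ J.1‖) ≤
        (C * (Ideal.absNorm J.1 : ℝ) ^ (-(3 / 2) : ℝ)) * (S * S) :=
          mul_le_mul h1 h3 (by positivity) (by positivity)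
      _ = _ := by ring
  have hsum : Summable (fun J : NZI K => ‖v (Ideal.absNorm J.1) * ((S : ℂ) * cd D χ J.1)‖) :=
    Summable.of_nonneg_of_le (fun _ => norm_nonneg _) hb ((sum_norm (K := K)).mul_left _)
  have hβn : ∀ J : NZI K, ‖β J.1‖ = ‖v (Ideal.absNorm J.1) * ((S : ℂ) * cd D χ J.1)‖ := by
    intro J
    simp only [hβ]
    have h2 : Ideal.absNorm J.1 ≠ 0 := by
      rw [Ne, Ideal.absNorm_eq_zero_iff]
      exact J.2
    rw [norm_mul _ ((Ideal.absNorm J.1 : ℂ) ^ (-(t * I : ℂ))),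
      Complex.norm_natCast_cpow_of_pos (Nat.pos_of_ne_zero h2)]
    simp
  have hβs : Summable (fun J : NZI K => β J.1) := by
    refine Summable.of_norm ?_
    simp only [hβn]
    exact hsum
  have hγs : ∀ L : FI K, ∑' J : {J : Ideal (𝓞 K) // Pri K L J}, γ J.1 ≠ ∞ := by
    intro L
    have h1 : ∑' J : NZI K, γ J.1 ≠ ∞ := by
      simp only [hγ]
      rw [ENNReal.tsum_mul_right]
      refine ENNReal.mul_ne_top ?_ (An_fin K).ne
      have h2 : ∀ J : NZI K, ‖v (Ideal.absNorm J.1) * ((S : ℂ) * cd D χ J.1)‖ₑ =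
          ENNReal.ofReal ‖v (Ideal.absNorm J.1) * ((S : ℂ) * cd D χ J.1)‖ := fun J =>
        (ofReal_norm _).symm
      simp only [h2]
      exact hsum.tsum_ofReal_ne_top
    refine ne_top_of_le_ne_top h1 ?_
    exact ENNReal.tsum_comp_le_tsum_of_injective
      (f := fun J : {J : Ideal (𝓞 K) // Pri K L J} => (⟨J.1, J.2.1⟩ : NZI K))
      (fun J J' h => Subtype.ext (by simpa using h)) (fun J : NZI K => γ J.1)
  have hc : ∀ c : D.ι, ∫ p in Fd K ×ˢ (univ : Set ℝ) ×ˢ An K, ec K χ.ν p.1 *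
      cexp (t * p.2.1 * I) *
      (ek χ.k p.2.2 * ∑' x : {x : K // x ∈ du K ((f : FI K) * D.M c) ∧ x ≠ 0}, ch D χ c x *
        v (Ideal.absNorm (idl K (du K ((f : FI K) * D.M c)) x)) *
          pF G (yM K (du K ((f : FI K) * D.M c)) p.2.1 (zs false p.1))
            (om false p.2.2) x) =
      (torsionOrder K : ℂ) * (∑' J : {J : Ideal (𝓞 K) // Pri K (du K ((f : FI K) * D.M c)) J},
        β J.1) * WG K G (-χ.k) (-χ.ν) t := by
    intro c
    set L := du K ((f : FI K) * D.M c) with hLd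
    have h2 : ∫ p in Fd K ×ˢ (univ : Set ℝ) ×ˢ An K, ec K χ.ν p.1 *
        cexp (t * p.2.1 * I) *
        (ek χ.k p.2.2 * ∑' x : {x : K // x ∈ L ∧ x ≠ 0}, ch D χ c x *
          v (Ideal.absNorm (idl K L x)) *
            pF G (yM K L p.2.1 (zs false p.1)) (om false p.2.2) x) =
        ∫ p in Fd K ×ˢ (univ : Set ℝ) ×ˢ An K, ∑' x : {x : K // x ∈ L ∧ x ≠ 0},
          FqG D χ G c t v x p := by
      refine integral_congr_ae (ae_of_all _ fun p => ?_)
      simp only
      rw [← tsum_mul_left, ← tsum_mul_left]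
      rfl
    rw [h2, WG_eq]
    refine class_unf2 (-1) (Or.inr rfl) L (hL c) (PwG K G (-χ.k) (-χ.ν) t)
      (PwG_meas K hPU _ hG _ _ _) (PwG_int K hPU G hG _ _ _) (Rk K (1 / 16)) (Rk_meas K _)
      (Rk_fin K (1 / 16) (by norm_num)) (FqG D χ G c t v) (FqG_meas hPU D χ G hG c t v) β γ
      (hγs L) ?_ ?_
    · intro x hx hx0 z τ
      have h3 := (ch_ag hAG hDC hPU hf D χ c x hx hx0).1
      have h4 := norm_idl K L (hL c) x hx hx0
      have h5 := yM_zl K L (hL c) x hx hx0 τ (-z)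
      have h6 := cpow_norm K (idl K L x) h4.1 t τ
      have h7 := ec_zl_neg K hPU χ.ν χ.norm_zero x hx0 z
      have h8 : ∀ θ : InfinitePlace K → ℝ, FqG D χ G c t v x (z, τ, θ) =
          (ec K χ.ν z * cexp (t * τ * I) * (ch D χ c x * v (Ideal.absNorm (idl K L x)))) *
          (ek χ.k θ * pF G (yM K L τ (-z)) (om false θ) x) := by
        intro θ
        unfold FqG
        simp only [zs, Bool.false_eq_true, if_false]
        ring
      simp only [h8]
      rw [integral_const_mul, angG_c K G χ.k _ x hx0, h5]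
      unfold PwG
      rw [h7, neg_one_smul]
      simp only [hβ]
      have h9 : v (Ideal.absNorm (idl K L x)) * ((S : ℂ) * cd D χ (idl K L x)) *
          (Ideal.absNorm (idl K L x) : ℂ) ^ (-(t * I : ℂ)) * (ec K χ.ν z * ph χ.ν x *
          cexp (t * ((τ + Real.log (Ideal.absNorm (idl K L x)) : ℝ) : ℂ) * I) *
          GkG K G (-χ.k) (yc K (τ + Real.log (Ideal.absNorm (idl K L x))) (-z + zl K x))) =
          ((Ideal.absNorm (idl K L x) : ℂ) ^ (-(t * I : ℂ)) *
          cexp (t * ((τ + Real.log (Ideal.absNorm (idl K L x)) : ℝ) : ℂ) * I)) *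
          (v (Ideal.absNorm (idl K L x)) * ((S : ℂ) * cd D χ (idl K L x) * ph χ.ν x) *
          (ec K χ.ν z * GkG K G (-χ.k)
            (yc K (τ + Real.log (Ideal.absNorm (idl K L x))) (-z + zl K x)))) := by ring
      rw [h9, h6, ← h3]
      ring
    · intro x hx hx0 z τ
      have h3 := (ch_ag hAG hDC hPU hf D χ c x hx hx0).2
      have h5 := yM_zl K L (hL c) x hx hx0 τ (-z)
      have h6 : ∀ θ : InfinitePlace K → ℝ, ‖FqG D χ G c t v x (z, τ, θ)‖ₑ ≤
          ‖v (Ideal.absNorm (idl K L x)) * ((S : ℂ) * cd D χ (idl K L x))‖ₑ *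
          Rk K (1 / 16) ((-1 : ℝ) • z + zl K x, τ + Real.log (Ideal.absNorm (idl K L x))) := by
        intro θ
        unfold FqG
        simp only [zs, Bool.false_eq_true, if_false]
        rw [enorm_mul, enorm_mul, enorm_mul, ec_enorm hPU, exp_enorm, ek_enorm, one_mul, one_mul,
          one_mul, enorm_mul, enorm_mul, h3, enorm_mul (v _), mul_comm ‖_ * _‖ₑ ‖v _‖ₑ]
        refine mul_le_mul_right ?_ _
        have h7 := pF_enorm K G hG x hx0 (yM K L τ (-z)) (Pos_om false θ)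
        rw [h5] at h7
        unfold Rk
        rw [neg_one_smul]
        exact h7
      refine (lintegral_mono h6).trans (le_of_eq ?_)
      rw [lintegral_const, Measure.restrict_apply_univ]
      simp only [hγ]
      ring
  rw [Finset.sum_congr rfl fun c _ => hc c]
  have h10 := sum_classes2 (fun c => du K ((f : FI K) * D.M c)) hreps β hβs
  have h11 : ∑ c, (torsionOrder K : ℂ) *
      (∑' J : {J : Ideal (𝓞 K) // Pri K (du K ((f : FI K) * D.M c)) J}, β J.1) *
        WG K G (-χ.k) (-χ.ν) t =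
      (torsionOrder K : ℂ) * (∑ c,
      (∑' J : {J : Ideal (𝓞 K) // Pri K (du K ((f : FI K) * D.M c)) J}, β J.1)) *
        WG K G (-χ.k) (-χ.ν) t := by
    rw [Finset.mul_sum, Finset.sum_mul]
  rw [h11, h10]
  have h12 : ∑' J : NZI K, β J.1 = (S : ℂ) * ∑' J : NZI K, cd D χ J.1 *
      v (Ideal.absNorm J.1) * (Ideal.absNorm J.1 : ℂ) ^ (-(t * I : ℂ)) := by
    rw [← tsum_mul_left]
    refine tsum_congr fun J => ?_
    simp only [hβ]
    ring
  rw [h12]
  ring

end

end Pool.Agent.H3.SWL
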